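import Pool.Agent.H60.CM.Targets

/-!
# Stable surfaces spanning a circle (`MP_d9d403_gt`), row LCS: functions with vanishing derivative
-/

set_option autoImplicit false

open Set Function MeasureTheory Filter Topology
open scoped Manifold ContDiff Matrix

namespace Pool.Agent.H96.CM

open Pool.Agent.H60.CM

theorem lcs_lin {L : E2 →L[ℝ] ℝ} (h0 : L (ee 0) = 0) (h1 : L (ee 1) = 0) : L = 0 := by
  ext v
  have e : v = v 0 • ee 0 + v 1 • ee 1 := by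
    ext i
    fin_cases i <;> simp [ee]
  rw [e, map_add, map_smul, map_smul, h0, h1]
  simp

theorem pf_LCS (h1 : T_PAT) (h2 : T_PDF) : T_LCS := by
  intro D f B hf hB hBi hBc hd p hp q hq
  have loc : ∀ s ∈ B, ∃ W, IsOpen W ∧ s ∈ W ∧ W ⊆ B ∧ ∀ t ∈ W, f t = f s := by
    intro s hs
    obtain ⟨O, ψ, y, hP, hy, hys, him⟩ := h1 D s B (hBi hs) hB hs
    obtain ⟨ε, hε, hball⟩ := Metric.isOpen_iff.mp hP.isOpen y hy
    have hz : ∀ z ∈ O, DifferentiableAt ℝ (f ∘ ψ) z ∧ fderiv ℝ (f ∘ ψ) z = 0 := by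
      intro z hz
      obtain ⟨m00, m01, m10, m11, _, h3⟩ := h2 D O ψ hP z hz
      obtain ⟨hc, h4, h5⟩ := h3 ℝ f hf
      have h6 := hd (ψ z) (him ⟨z, hz, rfl⟩)
      rw [h6 0, h6 1, smul_zero, smul_zero, add_zero] at h4 h5
      refine ⟨(hc.contDiffAt (hP.isOpen.mem_nhds hz)).differentiableAt (by simp), ?_⟩
      exact lcs_lin h4 h5
    refine ⟨ψ '' Metric.ball y ε, hP.im _ hball Metric.isOpen_ball,
      ⟨y, Metric.mem_ball_self hε, hys⟩, (image_mono hball).trans him, ?_⟩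
    rintro t ⟨z, hzb, rfl⟩
    rw [← hys]
    have h7 := Metric.isOpen_ball.is_const_of_fderiv_eq_zero (𝕜 := ℝ) (f := f ∘ ψ)
      (convex_ball y ε).isPreconnected
      (fun w hw => (hz w (hball hw)).1.differentiableWithinAt)
      (fun w hw => (hz w (hball hw)).2) hzb (Metric.mem_ball_self hε)
    exact h7
  by_contra hne
  have o1 : IsOpen {t | t ∈ B ∧ f t = f q} := by
    rw [isOpen_iff_forall_mem_open]
    rintro s ⟨hs, hfs⟩
    obtain ⟨W, a1, a2, a3, a4⟩ := loc s hs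
    exact ⟨W, fun t ht => ⟨a3 ht, (a4 t ht).trans hfs⟩, a1, a2⟩
  have o2 : IsOpen {t | t ∈ B ∧ f t ≠ f q} := by
    rw [isOpen_iff_forall_mem_open]
    rintro s ⟨hs, hfs⟩
    obtain ⟨W, a1, a2, a3, a4⟩ := loc s hs
    exact ⟨W, fun t ht => ⟨a3 ht, fun h => hfs ((a4 t ht).symm.trans h)⟩, a1, a2⟩
  obtain ⟨t, _, ⟨_, h3⟩, ⟨_, h4⟩⟩ := hBc _ _ o1 o2
    (fun t ht => by
      by_cases h : f t = f q
      · exact Or.inl ⟨ht, h⟩
      · exact Or.inr ⟨ht, h⟩)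
    ⟨q, hq, hq, rfl⟩ ⟨p, hp, hp, hne⟩
  exact h4 h3

end Pool.Agent.H96.CM
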