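import Pool.Agent.H88.CM.Targets

/-! Row NSTS of board clm_modules: the straight `N`-step perturbation (Euclidean version). -/

open Set Function Topology Metric Filter
open scoped Manifold
open Pool.Agent.H88.CL Pool.Agent.H88.CM

namespace Pool.Agent.H96.CM

theorem pf_NSTS (h1 : T_NSUS) (_h2 : T_ITAS) : T_NSTS := by
  intro d hd
  obtain ⟨C1, hC1, hu⟩ := h1 d hd
  refine ⟨C1, hC1, ?_⟩
  intro L Φ Φ' hc N b p q P T hN hfr hqp hsm
  obtain ⟨v, hv⟩ : ∃ v, v = P.symm (q - p) := ⟨_, rfl⟩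
  rw [← hv] at hsm ⊢
  have hv0 : v ≠ 0 := by
    intro h
    apply hqp
    rw [h] at hv
    have h5 : P.symm (q - p) = 0 := hv.symm
    have h6 : q - p = 0 := by
      have h7 := congrArg P h5
      rwa [ContinuousLinearEquiv.apply_symm_apply, map_zero] at h7
    exact sub_eq_zero.1 h6
  have hD : 0 < ‖v‖ := norm_pos_iff.2 hv0
  obtain ⟨z, hz0, hzN, hzb, hzs⟩ := hfr.str v
  have hex : ∀ l, ∃ u : E d → E d, l < N → (Bp d (Cmp Φ l '' {x | ‖P.symm (x - p) -
      (1 / 2 : ℝ) • v‖ ≤ 3 / 4 * ‖v‖}) (C1 * L ^ (3 * N) * ‖v‖) (C1 / N)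
      (C1 * L ^ N / (N * ‖v‖)) u ∧
      u (Cmp Φ l (p + P (z l))) = Cmp Φ l (p + P (z (l + 1))) - Cmp Φ l (p + P (z l))) := by
    intro l
    by_cases hl : l < N
    · obtain ⟨u, h5⟩ := hu L Φ Φ' hc N b p v (z l) (z (l + 1)) P T l hN hfr hl hv0 hsm
        (hzb l hl.le) (hzb (l + 1) hl) (hzs l hl).1 (hzs l hl).2
      exact ⟨u, fun _ => h5⟩
    · exact ⟨0, fun h => absurd h hl⟩
  choose u hu' using hex
  refine ⟨fun l => p + P (z l), u, ?_, ?_, ?_, ?_⟩
  · show p + P (z 0) = q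
    rw [hz0, hv, ContinuousLinearEquiv.apply_symm_apply]
    abel
  · show p + P (z N) = p
    rw [hzN, map_zero, add_zero]
  · intro l hl
    show ‖P.symm (p + P (z l) - p) - (1 / 2 : ℝ) • v‖ ≤ 3 / 4 * ‖v‖
    have h6 : P.symm (p + P (z l) - p) = z l := by simp
    rw [h6]
    have h7 := hzb l hl
    linarith
  · intro l hl
    exact hu' l hl

end Pool.Agent.H96.CM
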